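import Pool.Agent.W425.BF.Stm

set_option autoImplicit false

namespace Pool.Agent.W715.BF

open Pool.Agent.W426.SM (gord face IsRay)
open Pool.Agent.W803.SM (filt mem_filt gord_le exists_gord filt_nonempty)
open Pool.Agent.W425.BF

variable {n k : ℕ}

/-- index set of all the constraints -/
abbrev Phi (k : ℕ) : Type := (Fin k × Ix k) ⊕ (Fin k × Fin k)

/-- all the linear forms -/
noncomputable def ff (m : Fin k → Fin n → ℕ) (i : Fin n) : Phi k → Fin n → ℤ
  | Sum.inl (j0, q) => cf m i j0 q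
  | Sum.inr (j, l) => fun x => (m l x : ℤ) - m j x

/-- all the constants -/
noncomputable def dd (m : Fin k → Fin n → ℕ) (i : Fin n) : Phi k → ℤ
  | Sum.inl (j0, q) => cd m i j0 q
  | Sum.inr _ => 0

/-- the linear forms of a cell -/
noncomputable def hh (m : Fin k → Fin n → ℕ) (i : Fin n) (σ : Phi k → Bool) (φ : Phi k) :
    Fin n → ℤ := if σ φ = true then ff m i φ else fun x => - ff m i φ x

/-- the constants of a cell -/
noncomputable def ee (m : Fin k → Fin n → ℕ) (i : Fin n) (σ : Phi k → Bool) (φ : Phi k) : ℤ :=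
  if σ φ = true then dd m i φ else 1 - dd m i φ

theorem mem_cell (m : Fin k → Fin n → ℕ) (i : Fin n) (σ : Phi k → Bool) (u : Fin n → ℕ) :
    u ∈ Pol (hh m i σ) (ee m i σ) ↔
      ∀ φ, σ φ = true ↔ dd m i φ ≤ ∑ x, ff m i φ x * (u x : ℤ) := by
  unfold Pol
  simp only [Set.mem_ofPred_eq]
  refine forall_congr' fun φ => ?_
  by_cases h : σ φ = true
  · have h1 : hh m i σ φ = ff m i φ := by unfold hh; rw [if_pos h]
    have h2 : ee m i σ φ = dd m i φ := by unfold ee; rw [if_pos h]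
    rw [h1, h2]
    exact ⟨fun h3 => ⟨fun _ => h3, fun _ => h⟩, fun h3 => h3.1 h⟩
  · have h1 : hh m i σ φ = fun x => - ff m i φ x := by unfold hh; rw [if_neg h]
    have h2 : ee m i σ φ = 1 - dd m i φ := by unfold ee; rw [if_neg h]
    rw [h1, h2]
    simp only [neg_mul, Finset.sum_neg_distrib]
    constructor
    · intro h3
      exact ⟨fun h4 => absurd h4 h, fun h4 => by omega⟩
    · intro h3
      have h4 : ¬ dd m i φ ≤ ∑ x, ff m i φ x * (u x : ℤ) := fun h5 => h (h3.2 h5)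
      omega

theorem mem_filt_iff (hk : 0 < k) (m : Fin k → Fin n → ℕ) (i : Fin n) (u : Fin n → ℕ)
    (j : Fin k) :
    j ∈ filt m u ↔ ∀ l, dd m i (Sum.inr (j, l)) ≤ ∑ x, ff m i (Sum.inr (j, l)) x * (u x : ℤ) := by
  have hsum : ∀ (l : Fin k), ∑ x, ff m i (Sum.inr (j, l)) x * (u x : ℤ) =
      ((∑ x, u x * m l x : ℕ) : ℤ) - ((∑ x, u x * m j x : ℕ) : ℤ) := by
    intro l
    push_cast
    rw [← Finset.sum_sub_distrib]
    refine Finset.sum_congr rfl fun x _ => ?_
    unfold ff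
    ring
  simp only [hsum]
  unfold dd
  simp only
  rw [mem_filt]
  constructor
  · intro h l
    have := gord_le m u l
    omega
  · intro h
    obtain ⟨l, hl⟩ := exists_gord hk m u
    have h1 := h l
    have h2 := gord_le m u j
    omega

theorem filt_const (hk : 0 < k) (m : Fin k → Fin n → ℕ) (i : Fin n) (σ : Phi k → Bool)
    (u v : Fin n → ℕ) (hu : u ∈ Pol (hh m i σ) (ee m i σ)) (hv : v ∈ Pol (hh m i σ) (ee m i σ)) :
    filt m u = filt m v := by
  rw [mem_cell] at hu hv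
  ext j
  rw [mem_filt_iff hk m i, mem_filt_iff hk m i]
  refine forall_congr' fun l => ?_
  rw [← hu, ← hv]

theorem PA_const (m : Fin k → Fin n → ℕ) (i : Fin n) (σ : Phi k → Bool)
    (u v : Fin n → ℕ) (hu : u ∈ Pol (hh m i σ) (ee m i σ)) (hv : v ∈ Pol (hh m i σ) (ee m i σ))
    (j0 : Fin k) (h : u ∈ PA m i j0) : v ∈ PA m i j0 := by
  rw [mem_cell] at hu hv
  intro q
  have h1 : dd m i (Sum.inl (j0, q)) ≤ ∑ x, ff m i (Sum.inl (j0, q)) x * (u x : ℤ) := h q
  have h2 := (hv (Sum.inl (j0, q))).1 ((hu (Sum.inl (j0, q))).2 h1)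
  exact h2

/-- the good cells -/
def GoodC (m : Fin k → Fin n → ℕ) (i : Fin n) (σ : Phi k → Bool) : Prop :=
  (∃ u, u ∈ Pol (hh m i σ) (ee m i σ)) ∧
    ∀ u ∈ Pol (hh m i σ) (ee m i σ), ∀ j0, m j0 i = 1 → u ∉ PA m i j0

theorem main : TaskPOS → TaskCELL := by
  classical
  intro hpos n k m i hk
  let Q : Type := {σ : Phi k → Bool // GoodC m i σ}
  let E : Q ≃ Fin (Fintype.card Q) := Fintype.equivFin Q
  have hex : ∀ s : Fin (Fintype.card Q), ∃ u, u ∈ Pol (hh m i (E.symm s).1) (ee m i (E.symm s).1) :=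
    fun s => (E.symm s).2.1
  choose w hw using hex
  refine ⟨Fintype.card Q, Phi k, inferInstance, fun s => hh m i (E.symm s).1,
    fun s => ee m i (E.symm s).1, fun s => filt m (w s), ?_, ?_, ?_, ?_, ?_, ?_⟩
  · intro s u hu
    exact filt_const hk m i _ u (w s) hu (hw s)
  · intro s
    exact filt_nonempty hk m (w s)
  · intro u
    by_cases hu : ∃ j0, m j0 i = 1 ∧ u ∈ PA m i j0
    · exact Or.inl hu
    · right
      let σ : Phi k → Bool := fun φ => decide (dd m i φ ≤ ∑ x, ff m i φ x * (u x : ℤ))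
      have hmem : u ∈ Pol (hh m i σ) (ee m i σ) := by
        rw [mem_cell]
        intro φ
        simp only [σ, decide_eq_true_eq]
      have hg : GoodC m i σ := by
        refine ⟨⟨u, hmem⟩, ?_⟩
        intro v hv j0 hj0 hv2
        exact hu ⟨j0, hj0, PA_const m i σ v u hv hmem j0 hv2⟩
      refine ⟨E ⟨σ, hg⟩, ?_⟩
      simp only [Equiv.symm_apply_apply]
      exact hmem
  · intro s u hu j0 hj0
    exact (E.symm s).2.2 u hu j0 hj0
  · intro s s' hne
    rw [Set.disjoint_left]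
    intro u hu hu'
    apply hne
    apply E.symm.injective
    apply Subtype.ext
    funext φ
    have h1 := (mem_cell m i (E.symm s).1 u).1 hu φ
    have h2 := (mem_cell m i (E.symm s').1 u).1 hu' φ
    rw [Bool.eq_iff_iff]
    rw [h1, h2]
  · intro s ρ hρ a ha hpar
    obtain ⟨j0, hj0, -, hq⟩ := hpos m i a ha.1
    have hnot := (E.symm s).2.2 (w s) (hw s) j0 hj0
    have hex : ∃ q, ¬ cd m i j0 q ≤ ∑ x, cf m i j0 q x * ((w s) x : ℤ) := by
      by_contra hcon
      push Not at hcon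
      exact hnot hcon
    obtain ⟨q, hlt⟩ := hex
    have hmemw := (mem_cell m i (E.symm s).1 (w s)).1 (hw s) (Sum.inl (j0, q))
    have hfalse : ¬ ((E.symm s).1 (Sum.inl (j0, q)) = true) := fun h => hlt (hmemw.1 h)
    have h0 := hρ.2.1 (Sum.inl (j0, q))
    have h0' : 0 ≤ ∑ x, (- cf m i j0 q x) * (ρ x : ℤ) := by
      have heq : hh m i (E.symm s).1 (Sum.inl (j0, q)) = fun x => - cf m i j0 q x := by
        unfold hh
        rw [if_neg hfalse]
        rfl
      have h1 : 0 ≤ ∑ x, hh m i (E.symm s).1 (Sum.inl (j0, q)) x * (ρ x : ℤ) := h0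
      rw [heq] at h1
      exact h1
    simp only [neg_mul, Finset.sum_neg_distrib] at h0'
    rcases hq q with ⟨hc0, hd0⟩ | hp
    · apply hlt
      rw [hc0, hd0]
      simp
    · obtain ⟨M, N, hM, hN, hMN⟩ := hpar
      have e1 : (N : ℤ) * ∑ x, cf m i j0 q x * (ρ x : ℤ) =
          (M : ℤ) * ∑ x, cf m i j0 q x * (a x : ℤ) := by
        rw [Finset.mul_sum, Finset.mul_sum]
        refine Finset.sum_congr rfl fun x _ => ?_
        have h3 : (M : ℤ) * (a x : ℤ) = (N : ℤ) * (ρ x : ℤ) := by exact_mod_cast hMN x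
        calc (N : ℤ) * (cf m i j0 q x * (ρ x : ℤ)) = cf m i j0 q x * ((N : ℤ) * (ρ x : ℤ)) := by
              ring
          _ = cf m i j0 q x * ((M : ℤ) * (a x : ℤ)) := by rw [h3]
          _ = (M : ℤ) * (cf m i j0 q x * (a x : ℤ)) := by ring
      have hM' : (0 : ℤ) < M := by exact_mod_cast hM
      have hN' : (0 : ℤ) < N := by exact_mod_cast hN
      have h4 : 0 < (N : ℤ) * ∑ x, cf m i j0 q x * (ρ x : ℤ) := by
        rw [e1]
        exact mul_pos hM' hp
      have h5 : 0 < ∑ x, cf m i j0 q x * (ρ x : ℤ) := by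
        by_contra hcon
        push Not at hcon
        have := mul_nonpos_of_nonneg_of_nonpos hN'.le hcon
        omega
      omega

end Pool.Agent.W715.BF
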